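import Mathlib

set_option autoImplicit false
open Finset MvPolynomial

namespace Pool.Agent.H.MP_019aa5_co

abbrev E := EuclideanSpace ℝ (Fin 2)

def px : Fin 6 → ℤ := ![0, 8, 0, 1, 5, 1]
def py : Fin 6 → ℤ := ![0, 0, 8, 1, 2, 5]
noncomputable def p (i : Fin 6) : E := !₂[(px i : ℝ), (py i : ℝ)]
noncomputable def x0 : E := !₂[2, 3]

def DL : List (Finset (Fin 6)) :=
  [∅, {0}, {1}, {2}, {3}, {4}, {5}, {0, 1}, {0, 2}, {0, 3}, {0, 4}, {1, 2}, {1, 4}, {1, 5},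
   {2, 3}, {2, 5}, {3, 4}, {3, 5}, {4, 5}, {0, 1, 4}, {0, 2, 3}, {0, 3, 4}, {1, 2, 5}, {1, 4, 5},
   {2, 3, 5}, {3, 4, 5}]

def LL : List (ℤ × ℤ × ℤ) :=
  [(0, 0, 0), (-2, 5, 0), (7, 1, -8), (-5, -7, 40), (-1, 0, 1), (5, 7, -39), (1, -2, 1), (0, 1, 0),
   (-3, -1, 8), (1, -4, 3), (1, 0, 0), (-4, -1, 9), (3, 4, -23), (-1, 1, 0), (-2, -3, 16),
   (3, 1, -8), (-1, -1, 8), (1, -1, 0), (2, 3, -16), (2, -5, 0), (-7, -1, 8), (5, 7, -40),
   (1, 0, -1), (-1, 4, -3), (-3, -4, 23)]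

def ev (l : ℤ × ℤ × ℤ) (u : Fin 6) : ℤ := l.1 * px u + l.2.1 * py u + l.2.2
def ex (l : ℤ × ℤ × ℤ) : ℤ := l.1 * 2 + l.2.1 * 3 + l.2.2
def L (l : ℤ × ℤ × ℤ) (y : E) : ℝ := l.1 * y 0 + l.2.1 * y 1 + l.2.2

theorem L_p (l : ℤ × ℤ × ℤ) (u : Fin 6) : L l (p u) = ev l u := by simp [L, p, ev]
theorem L_x (l : ℤ × ℤ × ℤ) : L l x0 = ex l := by simp [L, x0, ex]

theorem L_comb (l : ℤ × ℤ × ℤ) (y z : E) {a b : ℝ} (h : a + b = 1) :
    L l (a • y + b • z) = a * L l y + b * L l z := by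
  simp only [L, PiLp.add_apply, PiLp.smul_apply, smul_eq_mul]
  linear_combination (-(l.2.2 : ℝ)) * h

theorem conv_le (l : ℤ × ℤ × ℤ) : Convex ℝ {y | 0 ≤ L l y} := by
  intro y hy z hz a b ha hb h
  simp only [Set.mem_ofPred_eq, L_comb l y z h] at *
  positivity

theorem L_span (l : ℤ × ℤ × ℤ) (S : Finset (Fin 6)) (h : ∀ u ∈ S, ev l u = 0) {y : E}
    (hy : y ∈ affineSpan ℝ (p '' (S : Set (Fin 6)))) : L l y = 0 := by
  refine affineSpan_induction (p := fun y => L l y = 0) hy ?_ ?_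
  · rintro _ ⟨u, hu, rfl⟩
    rw [L_p, h u hu, Int.cast_zero]
  · intro c u v w h1 h2 h3
    simp only [L, vsub_eq_sub, vadd_eq_add, PiLp.add_apply, PiLp.smul_apply, PiLp.sub_apply,
      smul_eq_mul] at *
    linear_combination c * h1 - c * h2 + h3

theorem d1 : ∀ S ∈ DL, ∀ v ∈ S, ∃ l ∈ LL, (∀ u ∈ S, u ≠ v → ev l u = 0) ∧ ev l v ≠ 0 := by
  decide +kernel

theorem d2 : ∀ S ∈ DL, ∀ T ∈ DL, ∃ l ∈ LL, (∀ u ∈ S, u ∉ T → 0 < ev l u) ∧
    (∀ u ∈ S, u ∈ T → ev l u = 0) ∧ ∀ u ∈ T, ev l u ≤ 0 := by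
  decide +kernel

theorem indep (S : Finset (Fin 6)) (hS : S ∈ DL) :
    AffineIndependent ℝ (fun i : (S : Set (Fin 6)) => p i) := by
  rw [affineIndependent_iff]
  intro s w h1 h2 v hv
  obtain ⟨l, -, h3, h4⟩ := d1 S hS v v.2
  have e0 := congrArg (fun y : E => y 0) h2
  have e1 := congrArg (fun y : E => y 1) h2
  simp only [WithLp.ofLp_sum, Finset.sum_apply, PiLp.smul_apply, smul_eq_mul, PiLp.zero_apply,
    WithLp.ofLp_smul, Pi.smul_apply] at e0 e1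
  have e : ∑ e ∈ s, w e * L l (p e) = 0 := by
    simp only [L, mul_add, sum_add_distrib, ← sum_mul, mul_left_comm (w _), ← mul_sum, h1, e0, e1]
    simp
  rw [sum_eq_single v (fun u _ hu => by
    rw [L_p, h3 u u.2 (fun h => hu (Subtype.ext h))]; simp) (fun h => absurd hv h), L_p] at e
  exact (mul_eq_zero.1 e).resolve_right (by exact_mod_cast h4)

theorem hull (S : Finset (Fin 6)) (hS : S ∈ DL) (T : Finset (Fin 6)) (hT : T ∈ DL) :
    convexHull ℝ (p '' (S : Set (Fin 6))) ∩ convexHull ℝ (p '' (T : Set (Fin 6))) =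
      convexHull ℝ (p '' ((S ∩ T : Finset (Fin 6)) : Set (Fin 6))) := by
  refine Set.Subset.antisymm ?_ (Set.subset_inter
    (convexHull_mono (Set.image_mono (by simp))) (convexHull_mono (Set.image_mono (by simp))))
  obtain ⟨l, -, h1, h2, h3⟩ := d2 S hS T hT
  rintro y ⟨y1, y2⟩
  have a1 : 0 ≤ L (-l) y := by
    refine convexHull_min ?_ (conv_le (-l)) y2
    rintro _ ⟨u, hu, rfl⟩
    have : (ev l u : ℝ) ≤ 0 := by exact_mod_cast h3 u hu
    rw [← L_p] at this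
    simp only [L, Set.mem_ofPred_eq, Prod.fst_neg, Prod.snd_neg, Int.cast_neg] at this ⊢
    linarith
  have a2 : y ∈ {y | 0 ≤ L l y ∧ (L l y = 0 →
      y ∈ convexHull ℝ (p '' ((S ∩ T : Finset (Fin 6)) : Set (Fin 6))))} := by
    refine convexHull_min ?_ ?_ y1
    · rintro _ ⟨u, hu, rfl⟩
      by_cases c : u ∈ T
      · exact ⟨by rw [L_p, h2 u hu c]; simp, fun _ =>
          subset_convexHull ℝ _ ⟨u, by simpa using ⟨hu, c⟩, rfl⟩⟩
      · have : (0 : ℝ) < ev l u := by exact_mod_cast h1 u hu c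
        rw [← L_p] at this
        exact ⟨this.le, fun h => absurd h this.ne'⟩
    · rintro y ⟨b1, b2⟩ z ⟨b3, b4⟩ a b ha hb h
      refine ⟨conv_le l b1 b3 ha hb h, fun e => ?_⟩
      rw [L_comb l y z h] at e
      have m1 := mul_nonneg ha b1
      have m2 := mul_nonneg hb b3
      rcases ha.eq_or_lt with rfl | ha'
      · rw [zero_add] at h
        subst h
        simpa using b4 (by linarith)
      rcases hb.eq_or_lt with rfl | hb'
      · rw [add_zero] at h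
        subst h
        simpa using b2 (by linarith)
      exact convex_convexHull ℝ _ (b2 (by nlinarith)) (b4 (by nlinarith)) ha hb h
  refine a2.2 (le_antisymm ?_ a2.1)
  simp only [L, Prod.fst_neg, Prod.snd_neg, Int.cast_neg] at a1 ⊢
  linarith

theorem tri (i j k : Fin 6) (y : E) (a b c : ℝ) (ha : 0 ≤ a) (hb : 0 ≤ b) (hc : 0 ≤ c)
    (h : a + b + c = 1) (h0 : y 0 = a * px i + b * px j + c * px k)
    (h1 : y 1 = a * py i + b * py j + c * py k) :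
    y ∈ convexHull ℝ (p '' (({i, j, k} : Finset (Fin 6)) : Set (Fin 6))) := by
  have := (convex_convexHull ℝ (p '' (({i, j, k} : Finset (Fin 6)) : Set (Fin 6)))).sum_mem
    (t := univ) (w := ![a, b, c]) (z := ![p i, p j, p k])
    (fun r _ => by fin_cases r <;> simpa) (by simpa [Fin.sum_univ_three] using h)
    (fun r _ => subset_convexHull ℝ _ (by fin_cases r <;> simp))
  convert this using 1
  ext r
  fin_cases r <;> simp [Fin.sum_univ_three, p, h0, h1]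

theorem cover (s t : ℝ) :
    (3 + s ≤ 4 * t ∧ 3 * s + 4 * t ≤ 23 ∧ 1 ≤ s) ∨ (2 * s + 3 * t ≤ 16 ∧ 5 * t ≤ 2 * s) ∨
    (2 * s ≤ 5 * t ∧ 4 * t ≤ s + 3 ∧ t ≤ s) ∨ (8 ≤ 3 * s + t ∧ 40 ≤ 5 * s + 7 * t) ∨
    (5 * s + 7 * t ≤ 40 ∧ 23 ≤ 3 * s + 4 * t ∧ 16 ≤ 2 * s + 3 * t) ∨ (s ≤ t ∧ 7 * s + t ≤ 8) ∨
    (8 ≤ 7 * s + t ∧ s ≤ 1 ∧ 3 * s + t ≤ 8) := by
  by_contra h
  simp only [not_or, not_and_or, not_le] at h
  obtain ⟨a1, a2, a3, a4, a5, a6, a7⟩ := h
  rcases a2 with a2 | a2 <;> rcases a4 with a4 | a4 <;> rcases a6 with a6 | a6 <;>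
    rcases a1 with a1 | a1 | a1 <;> (try linarith) <;> rcases a3 with a3 | a3 | a3 <;>
    (try linarith) <;> rcases a5 with a5 | a5 | a5 <;> (try linarith) <;>
    rcases a7 with a7 | a7 | a7 <;> linarith

theorem union_eq : (⋃ S ∈ DL.toFinset, convexHull ℝ (p '' (S : Set (Fin 6)))) =
    {y | 0 ≤ L (1, 0, 0) y} ∩ ({y | 0 ≤ L (0, 1, 0) y} ∩ {y | 0 ≤ L (-1, -1, 8) y}) := by
  apply Set.Subset.antisymm
  · refine Set.iUnion₂_subset fun S _ => convexHull_min ?_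
      ((conv_le _).inter ((conv_le _).inter (conv_le _)))
    rintro _ ⟨u, -, rfl⟩
    simp only [Set.mem_inter_iff, Set.mem_ofPred_eq, L_p]
    norm_cast
    revert u
    decide
  · rintro y ⟨h1, h2, h3⟩
    simp only [L, Set.mem_ofPred_eq] at h1 h2 h3
    norm_num at h1 h2 h3
    simp only [Set.mem_iUnion]
    rcases cover (y 0) (y 1) with h | h | h | h | h | h | h
    · exact ⟨{3, 4, 5}, by decide, tri 3 4 5 y ((23 - 3 * y 0 - 4 * y 1) / 16) ((y 0 - 1) / 4)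
        ((4 * y 1 - y 0 - 3) / 16) (by linarith) (by linarith) (by linarith) (by ring)
        (by simp [px]; ring) (by simp [py]; ring)⟩
    · exact ⟨{0, 1, 4}, by decide, tri 0 1 4 y ((16 - 2 * y 0 - 3 * y 1) / 16)
        ((2 * y 0 - 5 * y 1) / 16) (y 1 / 2) (by linarith) (by linarith) (by linarith) (by ring)
        (by simp [px]; ring) (by simp [py])⟩
    · exact ⟨{0, 3, 4}, by decide, tri 0 3 4 y ((y 0 + 3 - 4 * y 1) / 3) ((5 * y 1 - 2 * y 0) / 3)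
        ((y 0 - y 1) / 3) (by linarith) (by linarith) (by linarith) (by ring)
        (by simp [px]; ring) (by simp [py]; ring)⟩
    · exact ⟨{1, 2, 5}, by decide, tri 1 2 5 y ((3 * y 0 + y 1 - 8) / 16)
        ((5 * y 0 + 7 * y 1 - 40) / 16) ((8 - y 0 - y 1) / 2) (by linarith) (by linarith)
        (by linarith) (by ring) (by simp [px]; ring) (by simp [py]; ring)⟩
    · exact ⟨{1, 4, 5}, by decide, tri 1 4 5 y (3 * y 0 + 4 * y 1 - 23) (40 - 5 * y 0 - 7 * y 1)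
        (2 * y 0 + 3 * y 1 - 16) (by linarith) (by linarith) (by linarith) (by ring)
        (by simp [px]; ring) (by simp [py]; ring)⟩
    · exact ⟨{0, 2, 3}, by decide, tri 0 2 3 y ((8 - 7 * y 0 - y 1) / 8) ((y 1 - y 0) / 8)
        (y 0) (by linarith) (by linarith) (by linarith) (by ring)
        (by simp [px]) (by simp [py])⟩
    · exact ⟨{2, 3, 5}, by decide, tri 2 3 5 y (1 - y 0) ((8 - 3 * y 0 - y 1) / 4)
        ((7 * y 0 + y 1 - 8) / 4) (by linarith) (by linarith) (by linarith) (by ring)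
        (by simp [px]; ring) (by simp [py]; ring)⟩

theorem d3 : ∀ H ∈ DL, H.card + 1 = 3 → ∃ l ∈ LL, (∀ u ∈ H, ev l u = 0) ∧ ex l ≠ 0 := by
  decide +kernel

theorem not_opp (l : ℤ × ℤ × ℤ) (S : Finset (Fin 6)) (h : ∀ u ∈ S, ev l u = 0) (v : Fin 6)
    (h1 : 0 < ex l) (h2 : 0 < ev l v) :
    ¬ (affineSpan ℝ (p '' (S : Set (Fin 6)))).SOppSide x0 (p v) := by
  rintro ⟨⟨y, hy, z, hz, hr⟩, -⟩
  have a1 := L_span l S h hy
  have a2 := L_span l S h hz
  have a3 : 0 < L l x0 := by rw [L_x]; exact_mod_cast h1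
  have a4 : 0 < L l (p v) := by rw [L_p]; exact_mod_cast h2
  rcases hr with hr | hr | ⟨r, s, hr, hs, e⟩
  · rw [vsub_eq_zero_iff_eq.1 hr] at a3
    linarith
  · rw [← vsub_eq_zero_iff_eq.1 hr] at a4
    linarith
  · have e0 := congrArg (fun y : E => y 0) e
    have e1 := congrArg (fun y : E => y 1) e
    simp only [vsub_eq_sub, PiLp.smul_apply, PiLp.sub_apply, smul_eq_mul] at e0 e1
    have : r * L l x0 + s * L l (p v) = r * L l y + s * L l z := by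
      simp only [L]
      linear_combination (l.1 : ℝ) * e0 + (l.2.1 : ℝ) * e1
    rw [a1, a2] at this
    nlinarith [mul_pos hr a3, mul_pos hs a4]

end Pool.Agent.H.MP_019aa5_co
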