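import Mathlib
import Pool.Agent.H.MP_019aa5_co.A

set_option autoImplicit false
open Finset MvPolynomial

namespace Pool.Agent.H.MP_019aa5_co

abbrev R := MvPolynomial (Fin 6) ℚ

def Bz : Fin 6 → Fin 6 → ℤ :=
  ![![-1, 1, 1, -2, 0, 0], ![1, -1, 1, 0, -2, 0], ![1, 1, -1, 0, 0, -2],
    ![-2, 0, 0, 0, 2, 2], ![0, -2, 0, 2, 0, 2], ![0, 0, -2, 2, 2, 0]]

theorem Bz_symm : ∀ a b, Bz a b = Bz b a := by decide

noncomputable def θ : Fin 3 → R := ![X 3 + X 1 + X 2, X 4 + X 0 + X 2, X 5 + X 0 + X 1]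

noncomputable def φ : R →ₗ[ℚ] ℚ :=
  ∑ u, ∑ v, (Bz u v : ℚ) • (constantCoeff (σ := Fin 6) (R := ℚ)).toAddMonoidHom.toRatLinearMap ∘ₗ
    (pderiv u).toLinearMap ∘ₗ (pderiv v).toLinearMap

theorem φ_apply (g : R) :
    φ g = ∑ u, ∑ v, (Bz u v : ℚ) * constantCoeff (pderiv u (pderiv v g)) := by
  simp [φ, LinearMap.sum_apply]

theorem φ_X (g : R) (a : Fin 6) :
    φ (g * X a) = 2 * ∑ u, (Bz u a : ℚ) * constantCoeff (pderiv u g) := by
  have e : ∀ u v, constantCoeff (pderiv u (pderiv v (g * X a))) =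
      (if v = a then constantCoeff (pderiv u g) else 0) +
      (if u = a then constantCoeff (pderiv v g) else 0) := by
    intro u v
    simp only [Derivation.leibniz, pderiv_X, smul_eq_mul, map_add, map_mul, constantCoeff_X,
      Pi.single_apply]
    simp only [eq_comm (a := a)]
    by_cases h1 : v = a <;> by_cases h2 : u = a <;> simp [h1, h2]
  simp only [φ_apply, e, mul_add, sum_add_distrib, mul_ite, mul_zero, sum_ite_eq', mem_univ, if_true]
  rw [sum_comm]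
  simp only [sum_ite_eq', mem_univ, if_true, Bz_symm a]
  ring

theorem φ_XX (g : R) (a b : Fin 6) : φ (g * X b * X a) = 2 * Bz b a * constantCoeff g := by
  rw [φ_X]
  simp only [Derivation.leibniz, pderiv_X, smul_eq_mul, map_add, map_mul, constantCoeff_X,
    Pi.single_apply, zero_mul, add_zero, apply_ite constantCoeff, map_zero, mul_ite,
    mul_zero, mul_one, sum_ite_eq, mem_univ, if_true]
  ring

theorem φ_prod (g : R) (S : Finset (Fin 6)) (a b : Fin 6) (ha : a ∈ S) (hb : b ∈ S.erase a)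
    (h : Bz b a = 0 ∨ ((S.erase a).erase b).Nonempty) : φ (g * ∏ i ∈ S, X i) = 0 := by
  rw [← prod_erase_mul _ _ ha, ← prod_erase_mul _ _ hb, ← mul_assoc, ← mul_assoc, φ_XX]
  rcases h with h | ⟨c, hc⟩
  · simp [h]
  · rw [← prod_erase_mul _ _ hc]
    simp

noncomputable def J : Ideal R :=
  Ideal.span ((fun S : Finset (Fin 6) => ∏ i ∈ S, (X i : R)) '' {S | S ∉ DL.toFinset}) ⊔
    Ideal.span (Set.range θ)

theorem d4 : ∀ S : Finset (Fin 6), S ∉ DL.toFinset → ∃ a ∈ S, ∃ b ∈ S.erase a,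
    Bz b a = 0 ∨ ((S.erase a).erase b).Nonempty := by
  decide +kernel

theorem φ_J (g : R) (hg : g ∈ J) : φ g = 0 := by
  rw [J, ← Ideal.span_union] at hg
  have : ∀ c, φ (c * g) = 0 := by
    refine Submodule.span_induction (p := fun g _ => ∀ c, φ (c * g) = 0) ?_ ?_ ?_ ?_ hg
    · rintro _ (⟨S, hS, rfl⟩ | ⟨j, rfl⟩) c
      · obtain ⟨a, ha, b, hb, h⟩ := d4 S hS
        exact φ_prod c S a b ha hb h
      · fin_cases j <;> simp [θ, mul_add, φ_X, Fin.sum_univ_succ, Bz] <;> ring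
    · simp
    · intro a b _ _ h1 h2 c
      rw [mul_add, map_add, h1, h2, add_zero]
    · intro a b _ h c
      rw [smul_eq_mul, ← mul_assoc, h]
  simpa using this 1

theorem fin_J : Module.Finite ℚ (R ⧸ J) := by
  set y : Fin 6 → R ⧸ J := fun i => Ideal.Quotient.mk J (X i) with hy
  have m : ∀ S : Finset (Fin 6), S ∉ DL.toFinset → ∏ i ∈ S, y i = 0 := fun S hS => by
    rw [hy, ← map_prod, Ideal.Quotient.eq_zero_iff_mem]
    exact Ideal.mem_sup_left (Ideal.subset_span ⟨S, hS, rfl⟩)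
  have t : ∀ j, Ideal.Quotient.mk J (θ j) = 0 := fun j =>
    Ideal.Quotient.eq_zero_iff_mem.2 (Ideal.mem_sup_right (Ideal.subset_span ⟨j, rfl⟩))
  have t0 : y 3 + y 1 + y 2 = 0 := by simpa [θ] using t 0
  have t1 : y 4 + y 0 + y 2 = 0 := by simpa [θ] using t 1
  have t2 : y 5 + y 0 + y 1 = 0 := by simpa [θ] using t 2
  have m0 : y 0 * y 5 = 0 := by simpa using m {0, 5} (by decide)
  have m1 : y 1 * y 3 = 0 := by simpa using m {1, 3} (by decide)
  have m2 : y 2 * y 4 = 0 := by simpa using m {2, 4} (by decide)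
  have m3 : y 0 * (y 1 * y 2) = 0 := by simpa using m {0, 1, 2} (by decide)
  have q0 : y 0 ^ 2 + y 0 * y 1 = 0 := by linear_combination y 0 * t2 - m0
  have q1 : y 1 ^ 2 + y 1 * y 2 = 0 := by linear_combination y 1 * t0 - m1
  have q2 : y 2 ^ 2 + y 2 * y 0 = 0 := by linear_combination y 2 * t1 - m2
  have i : ∀ z : R ⧸ J, z ^ 3 = 0 → IsIntegral ℚ z := fun z hz =>
    IsIntegral.of_pow (n := 3) (by norm_num) (hz ▸ isIntegral_zero)
  have i0 := i (y 0) (by linear_combination (y 0 - y 1) * q0 + y 0 * q1 - m3)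
  have i1 := i (y 1) (by linear_combination (y 1 - y 2) * q1 + y 1 * q2 - m3)
  have i2 := i (y 2) (by linear_combination (y 2 - y 0) * q2 + y 2 * q0 - m3)
  have ia : ∀ k, IsIntegral ℚ (y k) := by
    intro k
    fin_cases k
    · exact i0
    · exact i1
    · exact i2
    · exact (show y 3 = -(y 1 + y 2) by linear_combination t0) ▸ (i1.add i2).neg
    · exact (show y 4 = -(y 0 + y 2) by linear_combination t1) ▸ (i0.add i2).neg
    · exact (show y 5 = -(y 0 + y 1) by linear_combination t2) ▸ (i0.add i1).neg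
  have : Algebra.IsIntegral ℚ (R ⧸ J) := ⟨fun z => by
    obtain ⟨g, rfl⟩ := Ideal.Quotient.mk_surjective z
    induction g using MvPolynomial.induction_on with
    | C a => exact isIntegral_algebraMap (x := a)
    | add p q hp hq => rw [map_add]; exact hp.add hq
    | mul_X p n hp => rw [map_mul]; exact hp.mul (ia n)⟩
  exact Algebra.IsIntegral.finite

theorem d5 : ∀ F ∈ DL, F.card = 3 → ∀ S ∈ F.powerset,
    (∃ v ∈ S, ∃ l ∈ LL, (∀ u ∈ F.erase v, ev l u = 0) ∧ 0 < ex l ∧ 0 < ev l v) ∨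
    S = ∅ ∨ (∃ a, S = {a}) ∨ ∃ a ∈ S, ∃ b ∈ S.erase a,
      Bz b a = 0 ∨ ((S.erase a).erase b).Nonempty := by
  decide +kernel

theorem φ_G (F : Finset (Fin 6)) (h1 : F ∈ DL) (h2 : F.card = 3) (S : Finset (Fin 6)) (h3 : S ⊆ F)
    (h4 : ∀ v ∈ S,
      (affineSpan ℝ (p '' ((F.erase v : Finset (Fin 6)) : Set (Fin 6)))).SOppSide x0 (p v)) :
    φ (∏ i ∈ S, X i) = 0 := by
  rcases d5 F h1 h2 S (mem_powerset.2 h3) with ⟨v, hv, l, -, a1, a2, a3⟩ | rfl | ⟨a, rfl⟩ |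
    ⟨a, ha, b, hb, h⟩
  · exact absurd (h4 v hv) (not_opp l _ a1 v a2 a3)
  · simp [φ_apply]
  · simpa using φ_X 1 a
  · simpa using φ_prod 1 S a b ha hb h

theorem not_span {ι : Type} (g : ι → R) (hg : ∀ i, φ (g i) = 0) :
    Submodule.span ℚ (Set.range fun i => Ideal.Quotient.mk J (g i)) ≠ ⊤ := by
  intro h
  have h1 : Submodule.span ℚ (Set.range fun i => Ideal.Quotient.mk J (g i)) ≤
      (LinearMap.ker φ).map (Ideal.Quotient.mkₐ ℚ J).toLinearMap :=
    Submodule.span_le.2 (by rintro _ ⟨i, rfl⟩; exact ⟨g i, hg i, rfl⟩)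
  obtain ⟨z, h2, h3⟩ := h1 (h ▸ Submodule.mem_top (x := Ideal.Quotient.mk J (1 * X 0 * X 1)))
  have h4 := φ_J _ (Ideal.Quotient.eq.1 h3)
  rw [map_sub, φ_XX, h2] at h4
  simp [Bz] at h4

theorem e1 : ∀ S ∈ DL.toFinset, ∀ T : Finset (Fin 6), T ⊆ S → T ∈ DL.toFinset := by decide +kernel
theorem e2 : ∀ i : Fin 6, ({i} : Finset (Fin 6)) ∈ DL.toFinset := by decide +kernel
theorem e3 : ∀ S ∈ DL.toFinset, S.card ≤ 3 := by decide +kernel
theorem e4 : ∃ S ∈ DL.toFinset, S.card = 3 := by decide +kernel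
theorem e5 : Convex ℝ (⋃ S ∈ DL.toFinset, convexHull ℝ (p '' (S : Set (Fin 6)))) := by
  rw [union_eq]; exact (conv_le _).inter ((conv_le _).inter (conv_le _))
theorem e6 : x0 ∈ (⋃ S ∈ DL.toFinset, convexHull ℝ (p '' (S : Set (Fin 6)))) := by
  rw [union_eq]; simp only [Set.mem_inter_iff, Set.mem_ofPred_eq, L_x]; norm_num [ex]
theorem e7 : ∀ H ∈ DL.toFinset, H.card + 1 = 3 → x0 ∉ affineSpan ℝ (p '' (H : Set (Fin 6))) := by
  intro H hH hc hx
  obtain ⟨l, -, h1, h2⟩ := d3 H (List.mem_toFinset.1 hH) hc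
  have := L_span l H h1 hx
  rw [L_x] at this
  exact h2 (by exact_mod_cast this)
theorem e8 : ∀ i, (θ i).IsHomogeneous 1 := fun i => by
  fin_cases i <;> exact ((isHomogeneous_X _ _).add (isHomogeneous_X _ _)).add (isHomogeneous_X _ _)

open Classical in
noncomputable def g (F : {F : Finset (Fin 6) // F ∈ DL.toFinset ∧ F.card = 3}) : R :=
  ∏ v ∈ F.1.filter (fun v =>
    (affineSpan ℝ (p '' ((F.1.erase v : Finset (Fin 6)) : Set (Fin 6)))).SOppSide x0 (p v)), X v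

open Classical in
theorem e9 : ∀ F, φ (g F) = 0 := fun F =>
  φ_G F.1 (List.mem_toFinset.1 F.2.1) F.2.2 _ (filter_subset _ _) fun _ hv => (mem_filter.1 hv).2

end Pool.Agent.H.MP_019aa5_co
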